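import Mathlib
import Pool.Agent.Helper445.Quad3
import Pool.Agent.Helper445.MeasB3

set_option autoImplicit false

namespace Pool.Agent.Results.MP_605763_gt.EllipsoidXrays

open MeasureTheory Module

/-- Euclidean `n`-space. -/
abbrev Space (n : ℕ) : Type := EuclideanSpace ℝ (Fin n)

/-- Linear subspaces of Euclidean `n`-space. -/
abbrev Sub (n : ℕ) : Type := Submodule ℝ (Space n)

/-- The orthogonal complement of a linear subspace. -/
noncomputable def perp {n : ℕ} (S : Sub n) : Sub n := Sᗮ

/-- The dimension of a linear subspace. -/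
noncomputable def dim {n : ℕ} (S : Sub n) : ℕ := finrank ℝ S

/-- Lebesgue measure on Euclidean `n`-space. -/
noncomputable def leb (n : ℕ) : Measure (Space n) := volume

/-- Lebesgue measure on a linear subspace `S`, of the dimension of `S`. -/
noncomputable def lebSub {n : ℕ} (S : Sub n) : Measure S := volume

/-- The measurable sets of the problem: bounded Lebesgue measurable subsets. -/
def BddMeas {n : ℕ} (E : Set (Space n)) : Prop :=
  Bornology.IsBounded E ∧ NullMeasurableSet E (leb n)

/-- Two sets are identified when their symmetric difference has measure zero. -/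
def Same {n : ℕ} (E E' : Set (Space n)) : Prop := leb n ((E \ E') ∪ (E' \ E)) = 0

/-- The X-ray of `E` parallel to the subspace `S`: at `x` orthogonal to `S` it is the
`k`-dimensional Lebesgue measure (`k` the dimension of `S`) of `E ∩ (S + x)`, the latter set being
carried to `S` by the translation by `-x`. -/
noncomputable def XRay {n : ℕ} (S : Sub n) (E : Set (Space n)) (x : perp S) : ENNReal :=
  lebSub S {s : S | (s : Space n) + (x : Space n) ∈ E}

/-- Ellipsoids: the images of the closed unit ball under nonsingular affine maps. -/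
def Ellipsoid {n : ℕ} (E : Set (Space n)) : Prop :=
  ∃ (A : Space n ≃ₗ[ℝ] Space n) (c : Space n), E = (fun x => A x + c) '' Metric.closedBall 0 1

/-- `E` is determined among measurable sets by its X-rays parallel to the subspaces in `𝒮`
(equality of two X-rays means equality at every point of the orthogonal complement). -/
def Determined {n : ℕ} (𝒮 : Finset (Sub n)) (E : Set (Space n)) : Prop :=
  ∀ E' : Set (Space n), BddMeas E' → (∀ S ∈ 𝒮, ∀ x, XRay S E' x = XRay S E x) → Same E' E

/-- The same with equality of two X-rays read as equality almost everywhere on the orthogonal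
complement. -/
def DeterminedAE {n : ℕ} (𝒮 : Finset (Sub n)) (E : Set (Space n)) : Prop :=
  ∀ E' : Set (Space n), BddMeas E' →
    (∀ S ∈ 𝒮, ∀ᵐ x ∂(lebSub (perp S)), XRay S E' x = XRay S E x) → Same E' E

/-- Some set of `m` subspaces of dimension `k` is such that every ellipsoid is determined among
measurable sets by its X-rays parallel to these subspaces. -/
def Suffices (n k m : ℕ) : Prop :=
  ∃ 𝒮 : Finset (Sub n), 𝒮.card = m ∧ (∀ S ∈ 𝒮, dim S = k) ∧
    ∀ E : Set (Space n), Ellipsoid E → Determined 𝒮 E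

/-- The same with almost everywhere equality of X-rays. -/
def SufficesAE (n k m : ℕ) : Prop :=
  ∃ 𝒮 : Finset (Sub n), 𝒮.card = m ∧ (∀ S ∈ 𝒮, dim S = k) ∧
    ∀ E : Set (Space n), Ellipsoid E → DeterminedAE 𝒮 E

/-- The claimed value of `N(n, k)`. -/
noncomputable def N (n k : ℕ) : ℕ :=
  if 3 * k ≤ n + 1 then 3
  else if 2 * k ≤ n then 4
  else ⌈((n : ℝ) * ((n : ℝ) + 1)) / (((n : ℝ) - (k : ℝ)) * ((n : ℝ) - (k : ℝ) + 1))⌉₊

theorem xray_eq {n : ℕ} (S : Sub n) (E : Set (Space n)) (x : perp S) :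
    XRay S E x = Pool.Agent.Helper445.MeasA.xray S E x := by
  unfold XRay Pool.Agent.Helper445.MeasA.xray lebSub
  simp only [add_comm]

theorem same_iff {n : ℕ} (E E' : Set (Space n)) :
    Same E' E ↔ E' =ᵐ[(volume : Measure (Space n))] E := by
  unfold Same leb
  rw [measure_union_null_iff, ae_eq_set]

theorem N_eq (n k : ℕ) (hkn : k < n) : N n k = Pool.Agent.Helper445.Quad.val n k := by
  unfold N Pool.Agent.Helper445.Quad.val
  split_ifs with h1 h2
  · rfl
  · rfl
  · set r := n - k with hr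
    have hr1 : 1 ≤ r := by omega
    have hrk : (n : ℝ) - (k : ℝ) = (r : ℝ) := by
      rw [hr, Nat.cast_sub hkn.le]
    rw [hrk]
    have hrr : 0 < r * (r + 1) := by positivity
    have hrr' : (0 : ℝ) < (r : ℝ) * ((r : ℝ) + 1) := by positivity
    apply eq_of_forall_ge_iff
    intro m
    rw [Nat.ceil_le, div_le_iff₀ hrr']
    have e1 : ((n : ℝ) * ((n : ℝ) + 1) ≤ (m : ℝ) * ((r : ℝ) * ((r : ℝ) + 1)))
        ↔ n * (n + 1) ≤ m * (r * (r + 1)) := by
      constructor
      · intro h
        exact_mod_cast h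
      · intro h
        exact_mod_cast h
    rw [e1, Nat.div_le_iff_le_mul_add_pred hrr]
    constructor
    · intro h
      rw [mul_comm m] at h
      omega
    · intro h
      rw [mul_comm m]
      omega

theorem low {n k : ℕ} (hn : 3 ≤ n) (hk : 1 < k) (hkn : k < n)
    (𝒮 : Finset (Sub n)) (h𝒮 : ∀ S ∈ 𝒮, dim S = k)
    (h : ∀ E, Ellipsoid E → Determined 𝒮 E) : N n k ≤ 𝒮.card := by
  rw [N_eq n k hkn]
  apply (Pool.Agent.Helper445.Quad.quadFree_isLeast k hn hk hkn).2
  refine ⟨𝒮, rfl, h𝒮, ?_⟩
  by_contra hq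
  obtain ⟨E, E', hE, hE', hx, hne⟩ := Pool.Agent.Helper445.MeasB.exists_counter _ hq
  apply hne
  rw [← same_iff]
  apply h E hE E' ⟨hE'.isCompact.isBounded, hE'.isCompact.measurableSet.nullMeasurableSet⟩
  intro S hS x
  rw [xray_eq, xray_eq]
  exact hx S hS x

theorem high {n k : ℕ} (hn : 3 ≤ n) (hk : 1 < k) (hkn : k < n) : SufficesAE n k (N n k) := by
  obtain ⟨𝒮, hc, h𝒮, hq⟩ := (Pool.Agent.Helper445.Quad.quadFree_isLeast k hn hk hkn).1
  refine ⟨𝒮, by rw [hc, N_eq n k hkn], h𝒮, ?_⟩
  intro E hE E' hE' hx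
  have : Nontrivial (Space n) := by
    have : Nonempty (Fin n) := ⟨⟨0, by omega⟩⟩
    infer_instance
  rw [same_iff]
  apply Pool.Agent.Helper445.MeasA.determined _ hq E E' hE hE'.1 hE'.2
  intro S hS
  have h1 := hx S hS
  unfold lebSub at h1
  filter_upwards [h1] with y hy
  have h2 := xray_eq S E' y
  have h3 := xray_eq S E y
  rw [← h2, ← h3]
  exact hy

theorem det_of_detAE {n : ℕ} (𝒮 : Finset (Sub n)) (E : Set (Space n))
    (h : DeterminedAE 𝒮 E) : Determined 𝒮 E := by
  intro E' hE' hx
  apply h E' hE'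
  intro S hS
  exact Filter.Eventually.of_forall (hx S hS)

/-- For all `n ≥ 3` and `1 < k ≤ n - 1`, the least number `m` such that some set of `m` subspaces of
dimension `k` has the property that every ellipsoid is determined among measurable sets by its
X-rays parallel to these subspaces, is `N n k`; both for everywhere and for almost everywhere
equality of X-rays. -/
theorem result (n k : ℕ) (hn : 3 ≤ n) (hk : 1 < k) (hkn : k ≤ n - 1) :
    IsLeast {m : ℕ | Suffices n k m} (N n k) ∧ IsLeast {m : ℕ | SufficesAE n k m} (N n k) := by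
  have hkn' : k < n := by omega
  obtain ⟨𝒮, hc, h𝒮, hd⟩ := high hn hk hkn'
  refine ⟨⟨⟨𝒮, hc, h𝒮, fun E hE => det_of_detAE 𝒮 E (hd E hE)⟩, ?_⟩,
    ⟨⟨𝒮, hc, h𝒮, hd⟩, ?_⟩⟩
  · rintro m ⟨𝒯, rfl, h𝒯, h⟩
    exact low hn hk hkn' 𝒯 h𝒯 h
  · rintro m ⟨𝒯, rfl, h𝒯, h⟩
    exact low hn hk hkn' 𝒯 h𝒯 (fun E hE => det_of_detAE 𝒯 E (h E hE))

end Pool.Agent.Results.MP_605763_gt.EllipsoidXrays
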